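import Pool.Agent.K1H49.PL.Gen

/-!
# Project PL, general case, piece LEN: lengthening
-/

set_option autoImplicit false

namespace Pool.Agent.K1H64.PLG

open Pool.Agent.K1H49.PL

universe u

/-- the change of variables -/
def jj {X ι K I : Type} {n : ℕ} (E0 : LN n → I) (E : K → LN n → Nd) :
    X ⊕ (Option K × LN n × ι) → X ⊕ ((I × ι) ⊕ (K × Nd × ι)) :=
  Sum.elim Sum.inl (fun p => Sum.inr (p.1.elim (Sum.inl (E0 p.2.1, p.2.2))
    (fun k => Sum.inr (k, E k p.2.1, p.2.2))))

/-- the conditions -/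
def Ga {M : Type u} (Y : Sys M) {X ι K I : Type} (lt : Bool → I → I → Prop) (x : X → M)
    (t : Option K → Nd → ι → M) : Set (Set (X ⊕ ((I × ι) ⊕ (K × Nd × ι)) → M)) :=
  {T | ∃ (n : ℕ) (S : Set (X ⊕ (Option K × LN n × ι) → M)) (E0 : LN n → I)
    (E : K → LN n → Nd), Y.D S ∧ HK x t n S ∧ Pt lt n E0 ∧ (∀ k, Pt ndl n (E k)) ∧
    T = {v | (v ∘ jj E0 E) ∈ S}}

theorem t_LEN : S_LEN.{u} := by
  intro M Y hsat X ι K I _ _ lt hbt x t
  obtain ⟨v, hv⟩ := hsat X ((I × ι) ⊕ (K × Nd × ι)) x (Ga Y lt x t) (by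
    rintro T ⟨n, S, E0, E, hS, -, -, -, rfl⟩
    exact Y.pull _ hS) (by
    intro Δ hΔ
    choose n S E0 E h1 h2 h3 h4 h5 using hΔ
    have hfin : (⋃ T : {T // T ∈ Δ}, Set.range (E0 T.1 T.2)).Finite := by
      apply Set.finite_iUnion
      intro T
      haveI : Finite (LN (n T.1 T.2)) := (List.finite_length_le Bool (n T.1 T.2)).to_subtype
      exact Set.finite_range _
    obtain ⟨g, hg⟩ := hbt.fe hfin.toFinset
    refine ⟨Sum.elim (fun p => t none (g p.1) p.2) (fun q => t (some q.1) q.2.1 q.2.2), ?_⟩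
    intro T hT
    have key := h2 T hT (fun o => o.elim (fun η => g (E0 T hT η)) (fun k => E T hT k)) (by
      intro o
      cases o with
      | none =>
        intro η η' d h
        apply hg
        · simp only [Set.Finite.mem_toFinset, Set.mem_iUnion, Set.mem_range]
          exact ⟨⟨T, hT⟩, η, rfl⟩
        · simp only [Set.Finite.mem_toFinset, Set.mem_iUnion, Set.mem_range]
          exact ⟨⟨T, hT⟩, η', rfl⟩
        · exact h3 T hT η η' d h
      | some k => exact h4 T hT k)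
    have h6 := h5 T hT
    have goal : (Sum.elim x (Sum.elim (fun p : I × ι => t none (g p.1) p.2)
        (fun q : K × Nd × ι => t (some q.1) q.2.1 q.2.2)) ∘ jj (E0 T hT) (E T hT)) ∈ S T hT := by
      convert key using 1
      funext p
      rcases p with a | ⟨o, η, i⟩
      · rfl
      · cases o <;> rfl
    rw [h6]
    exact goal)
  refine ⟨fun ρ i => v (Sum.inl (ρ, i)), fun k η i => v (Sum.inr (k, η, i)), ?_⟩
  intro n S hS hK E0 E hE0 hE
  have key := hv {v | (v ∘ jj E0 E) ∈ S} ⟨n, S, E0, E, hS, hK, hE0, hE, rfl⟩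
  have key2 : (Sum.elim x v ∘ jj E0 E) ∈ S := key
  convert key2 using 1
  funext p
  rcases p with a | ⟨o, η, i⟩
  · rfl
  · cases o <;> rfl

end Pool.Agent.K1H64.PLG
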